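import Pool.Agent.TH574.LogBM.Lp

set_option autoImplicit false

/-!
The `L_p`-Brunn-Minkowski inequality, `0 < p < 1`, with its equality case, for symmetric convex
bodies in `ℝ^n` with `n - 2` commuting linear reflections.
-/

open MeasureTheory

namespace Pool.Agent.Results.MP_b5407d_gt.AllButTwoReflections

/-- origin-symmetric convex body (in particular its centroid is the origin) -/
structure IsSymmBody {n : ℕ} (K : Set (EuclideanSpace ℝ (Fin n))) : Prop where
  conv : Convex ℝ K
  comp : IsCompact K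
  zero : (0 : EuclideanSpace ℝ (Fin n)) ∈ interior K
  symm : ∀ x ∈ K, -x ∈ K

/-- For the basis `b 0, …, b (n-1)` of `ℝ^n` and each `j ≥ 2` the linear reflection
`x ↦ x - 2 x_j b j` (`x_j` the `j`-th coordinate of `x` with respect to `b`), which takes `b j` to
`-b j` and fixes the other basis vectors, maps `K` into itself. -/
def ReflInvariant {n : ℕ} (b : Module.Basis (Fin n) ℝ (EuclideanSpace ℝ (Fin n)))
    (K : Set (EuclideanSpace ℝ (Fin n))) : Prop :=
  ∀ j : Fin n, 2 ≤ (j : ℕ) → ∀ x ∈ K, x - (2 * b.repr x j) • b j ∈ K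

/-- the support function of `K` -/
noncomputable def h {n : ℕ} (K : Set (EuclideanSpace ℝ (Fin n))) (u : EuclideanSpace ℝ (Fin n)) :
    ℝ := sSup ((fun y => inner ℝ y u) '' K)

/-- the `L_p`-combination `α K +_p β C` -/
def lpComb {n : ℕ} (p α β : ℝ) (K C : Set (EuclideanSpace ℝ (Fin n))) :
    Set (EuclideanSpace ℝ (Fin n)) :=
  {x | ∀ u : EuclideanSpace ℝ (Fin n), ‖u‖ = 1 →
    inner ℝ x u ≤ (α * h K u ^ p + β * h C u ^ p) ^ (1 / p)}

/-- The `L_p`-Brunn-Minkowski inequality, `0 < p < 1`, with the characterisation of equality, for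
two symmetric convex bodies of `ℝ^n`, `n ≥ 2`, which are invariant under the reflections
`b j ↦ -b j`, `j ≥ 2`, of a common basis `b`. -/
theorem result (n : ℕ) (hn : 2 ≤ n) (b : Module.Basis (Fin n) ℝ (EuclideanSpace ℝ (Fin n)))
    (K C : Set (EuclideanSpace ℝ (Fin n))) (hK : IsSymmBody K) (hC : IsSymmBody C)
    (rK : ReflInvariant b K) (rC : ReflInvariant b C) (p α β : ℝ) (h0 : 0 < p) (h1 : p < 1)
    (hα : 0 < α) (hβ : 0 < β) :
    α * (volume K).toReal ^ (p / n) + β * (volume C).toReal ^ (p / n) ≤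
      (volume (lpComb p α β K C)).toReal ^ (p / n) ∧
    ((volume (lpComb p α β K C)).toReal ^ (p / n) =
      α * (volume K).toReal ^ (p / n) + β * (volume C).toReal ^ (p / n) ↔
        ∃ t : ℝ, 0 < t ∧ C = (fun x : EuclideanSpace ℝ (Fin n) => t • x) '' K) :=
  Pool.Agent.TH574.LogBM.lp_basis hn b ⟨hK.conv, hK.comp, hK.zero, hK.symm⟩
    ⟨hC.conv, hC.comp, hC.zero, hC.symm⟩ rK rC h0 h1 hα hβ

end Pool.Agent.Results.MP_b5407d_gt.AllButTwoReflections
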